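import Pool.Agent.helper46.ESM.Spec

set_option autoImplicit false

/-! # es:CR2 (MP_43ab4e_al): the action on the quotient -/

namespace Pool.Agent.helper46.ESM

open Subgroup Pool.Agent.helper80.EN

universe u

theorem CR2_all (P : Type u) [Group P] (D : Subgroup P) [D.Normal] (K : Subgroup D) (T : Set P)
    (hT : closure T = ⊤) (ha : ∀ a ∈ T, K.map (MulAut.conjNormal a : MulAut D).toMonoidHom = K)
    (p : P) : K.map (MulAut.conjNormal p : MulAut D).toMonoidHom = K := by
  have hmul : ∀ p q : P, (MulAut.conjNormal (p * q) : MulAut D).toMonoidHom =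
      (MulAut.conjNormal p : MulAut D).toMonoidHom.comp
        (MulAut.conjNormal q : MulAut D).toMonoidHom := by
    intro p q
    rw [map_mul]
    rfl
  have hone : (MulAut.conjNormal (1 : P) : MulAut D).toMonoidHom = MonoidHom.id D := by
    rw [map_one]
    rfl
  have hp : p ∈ closure T := by rw [hT]; exact mem_top p
  induction hp using Subgroup.closure_induction with
  | mem x hx => exact ha x hx
  | one => rw [hone, Subgroup.map_id]
  | mul x y _ _ hx hy => rw [hmul, ← Subgroup.map_map, hy, hx]
  | inv x _ hx =>
    nth_rewrite 1 [← hx]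
    rw [Subgroup.map_map, ← hmul, inv_mul_cancel, hone, Subgroup.map_id]

theorem CR2 : CR2_stmt.{u} := by
  intro P _ D _ K hK T hT ha
  have h := CR2_all P D K T hT ha
  refine ⟨MonoidHom.mk' (fun p => QuotientGroup.congr K K (MulAut.conjNormal p) (h p)) ?_, ?_⟩
  · intro p q
    ext x
    induction x using QuotientGroup.induction_on with
    | H d =>
      rw [MulAut.mul_apply]
      show QuotientGroup.mk' K (MulAut.conjNormal (p * q) d) =
        QuotientGroup.mk' K (MulAut.conjNormal p (MulAut.conjNormal q d))
      rw [map_mul]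
      rfl
  · intro p d
    rfl

end Pool.Agent.helper46.ESM
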