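import Pool.Agent.helper46.ESM.Spec
set_option autoImplicit false
namespace Pool.Agent.helper46.ESM
open Subgroup Pool.Agent.helper80.EN
universe u
theorem NRN : NRN_stmt.{u} := by
  intro P _
  unfold nres
  refine ⟨fun x hx g => ?_⟩
  rw [Subgroup.mem_iInf] at hx ⊢
  intro n
  have : ((⊤ : Subgroup P).lowerCentralSeries n).Normal := inferInstance
  exact this.conj_mem x (hx n) g
end Pool.Agent.helper46.ESM
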